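import Pool.Agent.Helper67.R12.Sheet

/-! Row REL of the rank twelve family (MP_798d7d_nt). -/

set_option autoImplicit false

namespace Pool.Helper67.R12

open Pool.Helper17.R8 (ek q4 q3 q2 q1 q0 fI fJ)

namespace S30

theorem ek_map {R R' : Type*} [CommRing R] [CommRing R'] (φ : R →+* R') (s : Fin 8 → R) (k : ℕ) :
    φ (ek s k) = ek (fun i => φ (s i)) k := by
  unfold ek
  rw [map_sum]
  exact Finset.sum_congr rfl fun T _ => map_prod φ _ _

theorem fI_map {R R' : Type*} [CommRing R] [CommRing R'] (φ : R →+* R') (e : ℕ → R) (t : R) :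
    φ (fI e t) = fI (fun k => φ (e k)) (φ t) := by
  simp only [fI, q4, q3, q2, q1, q0, map_add, map_sub, map_mul, map_pow, map_ofNat]

theorem fJ_map {R R' : Type*} [CommRing R] [CommRing R'] (φ : R →+* R') (e : ℕ → R) (t : R) :
    φ (fJ e t) = fJ (fun k => φ (e k)) (φ t) := by
  simp only [fJ, q4, q3, q2, q1, q0, map_add, map_sub, map_mul, map_pow, map_ofNat]

theorem gg_map {R R' : Type*} [CommRing R] [CommRing R'] (φ : R →+* R') (s : Fin 8 → R) (k : Fin 4) :
    φ (gg s k) = gg (fun i => φ (s i)) k := by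
  simp only [gg, sg1, sg2, sg3, ta3, c1, c2, c3, map_add, map_sub, map_mul, map_ofNat]

/-- congruences pass through everything -/
theorem dvd_all (m : ℤ) (s s' : Fin 8 → ℤ) (h : ∀ i, m ∣ s i - s' i) :
    (∀ k, m ∣ ek s k - ek s' k) ∧ (∀ k, m ∣ gg s k - gg s' k) ∧
    ∀ t t' : ℤ, m ∣ t - t' → m ∣ fI (ek s) t - fI (ek s') t' ∧ m ∣ fJ (ek s) t - fJ (ek s') t' := by
  let φ : ℤ →+* ℤ ⧸ Ideal.span {m} := Ideal.Quotient.mk _
  have hφ : ∀ a b : ℤ, m ∣ a - b ↔ φ a = φ b := fun a b => by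
    rw [Ideal.Quotient.eq, Ideal.mem_span_singleton]
  have hs : (fun i => φ (s i)) = fun i => φ (s' i) := by
    funext i
    exact (hφ _ _).1 (h i)
  have he : ∀ k, φ (ek s k) = φ (ek s' k) := by
    intro k
    rw [ek_map, ek_map, hs]
  have he' : (fun k => φ (ek s k)) = fun k => φ (ek s' k) := funext he
  refine ⟨fun k => (hφ _ _).2 (he k), fun k => ?_, fun t t' ht => ?_⟩
  · rw [hφ, gg_map, gg_map, hs]
  · have ht' : φ t = φ t' := (hφ _ _).1 ht
    exact ⟨by rw [hφ, fI_map, fI_map, he', ht'], by rw [hφ, fJ_map, fJ_map, he', ht']⟩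

theorem ss_lin (M : ℤ) (a : Fin 3 → ℤ) (i : Fin 8) :
    ss (fun j => ub j + M * a j) i = sb i + M * ss a i := by
  fin_cases i <;> simp [ss, ub, sb] <;> ring

theorem e3_0 : ek sb 3 = 21240 := by decide +kernel

theorem gg_0 : ∀ k : Fin 4, 46 - gg sb k = 2 * yb k := by decide +kernel

theorem fI_0 : fI (ek sb) 112783871 = 48 * 4377541490977117787119897 := by decide +kernel

theorem fJ_0 : fJ (ek sb) 112783871 = 1728 * (-3555673705654245650846984137269176689) := by
  decide +kernel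

/-- everything with a variable `F` in place of the factorial -/
theorem core (F : ℤ) (a : Fin 3 → ℤ) (c : ℤ) (s : Fin 8 → ℤ)
    (hs : s = ss (fun j => ub j + 6912 * F * a j)) :
    (∀ i, F ∣ s i - sb i) ∧
    (∃ x, ek s 3 ^ 2 - (46 + 6912 * F * c) ^ 2 = 4 * (112783871 + 1728 * F * x)) ∧
    (∀ k, ∃ y, (46 + 6912 * F * c) - gg s k = 2 * (yb k + F * y)) ∧
    ∀ x, (∃ v, fI (ek s) (112783871 + 1728 * F * x) =
        48 * (4377541490977117787119897 + F * v)) ∧
      ∃ v, fJ (ek s) (112783871 + 1728 * F * x) =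
        1728 * (-3555673705654245650846984137269176689 + F * v) := by
  have h1 : ∀ i, s i = sb i + 6912 * F * ss a i := fun i => by rw [hs]; exact ss_lin _ a i
  have hM : ∀ i, 6912 * F ∣ s i - sb i := fun i => ⟨ss a i, by rw [h1 i]; ring⟩
  have hM' : ∀ i, 1728 * F ∣ s i - sb i := fun i => ⟨4 * ss a i, by rw [h1 i]; ring⟩
  obtain ⟨he, hg, -⟩ := dvd_all _ _ _ hM
  obtain ⟨-, -, hf⟩ := dvd_all _ _ _ hM'
  refine ⟨fun i => ⟨6912 * ss a i, by rw [h1 i]; ring⟩, ?_, fun k => ?_, fun x => ?_⟩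
  · obtain ⟨y, hy⟩ := he 3
    rw [e3_0] at hy
    have h3 : ek s 3 = 21240 + 6912 * F * y := by linarith
    refine ⟨2 * 21240 * y + 6912 * F * y ^ 2 - 2 * 46 * c - 6912 * F * c ^ 2, ?_⟩
    rw [h3]; ring
  · obtain ⟨y, hy⟩ := hg k
    have h0 := gg_0 k
    refine ⟨3456 * (c - y), ?_⟩
    linear_combination h0 - hy
  · obtain ⟨⟨v, hv⟩, w, hw⟩ := hf (112783871 + 1728 * F * x) 112783871 ⟨x, by ring⟩
    rw [fI_0] at hv
    rw [fJ_0] at hw
    exact ⟨⟨36 * v, by linarith⟩, w, by linarith⟩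

end S30

theorem st_REL : ST_REL := by
  intro T
  obtain ⟨F, hF⟩ : ∃ F : ℤ, F = ((QQ.factorial : ℕ) : ℤ) := ⟨_, rfl⟩
  have hM : MM = 6912 * F := by rw [hF]; rfl
  have hsa : sa T.1 = ss (fun j => ub j + 6912 * F * ((T.1 j : ℕ) : ℤ)) := by
    unfold sa uu
    rw [hM]
  have hzz : zz T = 46 + 6912 * F * ((T.2 : ℕ) : ℤ) := by
    unfold zz
    rw [hM]
  obtain ⟨h1, ⟨x, hx⟩, h3, h4⟩ := S30.core F (fun j => ((T.1 j : ℕ) : ℤ)) ((T.2 : ℕ) : ℤ) (sa T.1) hsa
  choose y hy using h3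
  obtain ⟨⟨v, hv⟩, w, hw⟩ := h4 x
  have htt : tt T = 112783871 + 1728 * F * x := by
    unfold tt
    rw [hzz, hx]
    exact Int.mul_ediv_cancel_left _ (by norm_num)
  have hyy : ∀ k, yy T k = yb k + F * y k := by
    intro k
    unfold yy
    rw [hzz, hy k]
    exact Int.mul_ediv_cancel_left _ (by norm_num)
  have hcA : cA T = -4377541490977117787119897 - F * v := by
    unfold cA
    rw [htt, hv]
    have e1 : -(48 * (4377541490977117787119897 + F * v)) =
        48 * (-4377541490977117787119897 - F * v) := by ring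
    rw [e1]
    exact Int.mul_ediv_cancel_left _ (by norm_num)
  have hcB : cB T = 3555673705654245650846984137269176689 - F * w := by
    unfold cB
    rw [htt, hw]
    have e1 : -(1728 * (-3555673705654245650846984137269176689 + F * w)) =
        1728 * (3555673705654245650846984137269176689 - F * w) := by ring
    rw [e1]
    exact Int.mul_ediv_cancel_left _ (by norm_num)
  rw [← hF]
  refine ⟨?_, fun k => ?_, ?_, ?_, h1, ?_, fun k => ?_, ?_, ?_⟩
  · rw [htt, hzz, hx]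
  · rw [hyy k, hzz, hy k]
  · rw [hcA, htt, hv]; ring
  · rw [hcB, htt, hw]; ring
  · rw [htt]; exact ⟨1728 * x, by ring⟩
  · rw [hyy k]; exact ⟨y k, by ring⟩
  · rw [hcA]; exact ⟨-v, by ring⟩
  · rw [hcB]; exact ⟨-w, by ring⟩

end Pool.Helper67.R12
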